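import Pool.Agent.H.MP_1dc7bd_an.D

open Filter Topology Set MeasureTheory
open scoped symmDiff

namespace Pool.Agent.Results.MP_1dc7bd_an.Induced

def PRigid {X : Type} [MeasurableSpace X] (μ : Measure X) (A : Set X) (S : X → X) : Prop :=
  ∃ δ : ℝ, 0 < δ ∧ δ ≤ 1 ∧ ∃ n : ℕ → ℕ, StrictMono n ∧ (∀ k, 0 < n k) ∧
    ∀ B : Set X, MeasurableSet B → B ⊆ A →
      ENNReal.ofReal δ * (μ B / μ A) ≤ liminf (fun k => μ (B ∩ S^[n k] ⁻¹' B) / μ A) atTop

open Pool.Agent.H.MP_1dc7bd_an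

theorem result : ∃ (X : Type) (_ : TopologicalSpace X) (_ : CompactSpace X)
    (_ : TopologicalSpace.MetrizableSpace X) (_ : TotallyDisconnectedSpace X)
    (_ : MeasurableSpace X) (_ : BorelSpace X) (T : X ≃ₜ X) (μ : Measure X) (A : Set X) (S : X → X),
    (∀ x : X, (𝓝[≠] x).NeBot) ∧
    (∀ x : X, Dense {y : X | ∃ n : ℕ, T^[n] x = y ∨ T.symm^[n] x = y}) ∧
    IsProbabilityMeasure μ ∧ MeasurePreserving T μ μ ∧
    (∃ n : ℕ → ℕ, StrictMono n ∧ (∀ k, 0 < n k) ∧ ∀ B : Set X, MeasurableSet B →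
      Tendsto (fun k => μ ((T^[n k] ⁻¹' B) ∆ B)) atTop (𝓝 0)) ∧
    PRigid μ univ T ∧ IsClopen A ∧ μ A ≠ 0 ∧
    (∀ x ∈ A, ∃ r : ℕ, 0 < r ∧ S x = T^[r] x ∧ T^[r] x ∈ A ∧ ∀ j : ℕ, 0 < j → j < r → T^[j] x ∉ A) ∧
    ¬ PRigid μ A S := by
  obtain ⟨μ, h1, h2, h3, h4⟩ := all
  have hA : μ (co 0) ≠ 0 := fun h0 => by
    have e1 := (h4 1 one_ne_zero).1
    rw [Measure.real, measure_mono_null (co_sub one_ne_zero) h0] at e1
    norm_num at e1
  refine ⟨X z, inferInstance, inferInstance, inferInstance, inferInstance, inferInstance,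
    inferInstance, T z, μ, co 0, S, perfect z hper hap, minimal z hper, h1, h2,
    ⟨N, N_mono, N_pos, h3⟩, ⟨1, one_pos, le_rfl, N, N_mono, N_pos, fun B hB _ => ?_⟩, co_clopen 0,
    hA, fun x _ => ?_, ?_⟩
  · simp only [ENNReal.ofReal_one, measure_univ, div_one, one_mul]
    have l1 : Tendsto (fun k => μ B - μ (((T z)^[N k] ⁻¹' B) ∆ B)) atTop (𝓝 (μ B - 0)) :=
      ENNReal.Tendsto.sub tendsto_const_nhds (h3 B hB) (Or.inl (measure_ne_top _ _))
    rw [tsub_zero] at l1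
    rw [← l1.liminf_eq]
    refine liminf_le_liminf (Eventually.of_forall fun k => tsub_le_iff_right.2 ?_)
    refine le_trans (measure_mono fun x hx => ?_) (measure_union_le _ _)
    by_cases hx2 : x ∈ (T z)^[N k] ⁻¹' B
    · exact Or.inl ⟨hx, hx2⟩
    · exact Or.inr (Or.inr ⟨hx, hx2⟩)
  · obtain ⟨r, a, -, b⟩ := S_ret x
    exact ⟨r, a, b⟩
  · rintro ⟨δ, d0, d1, n, n1, -, n3⟩
    obtain ⟨β, hβ⟩ := pow_unbounded_of_one_lt (36 / δ) (by norm_num : (1 : ℝ) < 2)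
    have hβ0 : β ≠ 0 := by
      rintro rfl
      rw [div_lt_iff₀ d0] at hβ
      norm_num at hβ; linarith
    obtain ⟨e1, e2⟩ := h4 β hβ0
    have l1 := n3 _ (co_clopen β).1.measurableSet (co_sub hβ0)
    have l2 : liminf (fun k => μ (co β ∩ S^[n k] ⁻¹' co β) / μ (co 0)) atTop ≤
        ENNReal.ofReal (36 / (2 ^ β) ^ 2) / μ (co 0) := by
      refine liminf_le_of_frequently_le' (Eventually.frequently ?_)
      filter_upwards [n1.tendsto_atTop.eventually (eventually_ge_atTop (P β ^ 2))] with k hk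
      refine ENNReal.div_le_div_right ?_ _
      rw [← ofReal_measureReal]
      exact ENNReal.ofReal_le_ofReal (e2 _ hk)
    have l3 := l1.trans l2
    rw [← mul_div_assoc, ENNReal.div_le_iff hA (measure_ne_top _ _),
      ENNReal.div_mul_cancel hA (measure_ne_top _ _), ← ofReal_measureReal, e1,
      ← ENNReal.ofReal_mul d0.le, ENNReal.ofReal_le_ofReal_iff (by positivity)] at l3
    rw [div_lt_iff₀ d0] at hβ
    have b0 : (0 : ℝ) < 2 ^ β := by positivity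
    rw [mul_one_div, div_le_div_iff₀ b0 (by positivity)] at l3
    nlinarith

end Pool.Agent.Results.MP_1dc7bd_an.Induced
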